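import Pool.Agent.H70.UN.Targets2

/-! Row CCSW of the board `uni_modules`: the high part is small. -/

set_option autoImplicit false

namespace Pool.Agent.H70.UN

open Matrix Finset H43.PS

theorem CCSW_aux {Θ : Type} [Fintype Θ] [DecidableEq Θ] (N : ℕ) (σ : Fin N → ℝ)
    (z : Fin N → Θ) (u : Fin N → Option Θ) :
    czw σ z u ^ 2 = (∏ i, (if u i = none ∨ u i = some (z i) then (1 : ℝ) else 0)) *
      ∏ k ∈ spp u, ((σ k)⁻¹) ^ 2 := by
  have h1 : ∏ k ∈ spp u, ((σ k)⁻¹) ^ 2 =
      ∏ i : Fin N, (if (u i).isSome = true then ((σ i)⁻¹) ^ 2 else (1 : ℝ)) := by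
    unfold spp
    rw [Finset.prod_filter]
  rw [h1, czw, ← Finset.prod_pow, ← Finset.prod_mul_distrib]
  refine Finset.prod_congr rfl fun i _ => ?_
  cases hu : u i with
  | none => simp [cc]
  | some t =>
    by_cases ht : t = z i
    · simp [cc, ht]
    · simp [cc, ht]

theorem pf_CCSW : T_CCSW := by
  intro Θ _ _ N σ UU τ w z hτ hσ hT
  have hcs := Finset.sum_mul_sq_le_sq_mul_sq
    (univ.filter (fun u : Fin N → Option Θ => spp u ∉ UU)) (fun u => czw σ z u) w
  refine le_trans hcs ?_
  have hnn : ∀ u : Fin N → Option Θ,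
      0 ≤ ∏ i, (if u i = none ∨ u i = some (z i) then (1 : ℝ) else 0) := by
    intro u
    refine Finset.prod_nonneg fun i _ => ?_
    split_ifs <;> norm_num
  have hA : ∑ u ∈ univ.filter (fun u : Fin N → Option Θ => spp u ∉ UU), czw σ z u ^ 2 ≤
      2 ^ N * τ := by
    calc ∑ u ∈ univ.filter (fun u : Fin N → Option Θ => spp u ∉ UU), czw σ z u ^ 2
        ≤ ∑ u ∈ univ.filter (fun u : Fin N → Option Θ => spp u ∉ UU),
            (∏ i, (if u i = none ∨ u i = some (z i) then (1 : ℝ) else 0)) * τ := by
          refine Finset.sum_le_sum fun u hu => ?_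
          rw [CCSW_aux]
          exact mul_le_mul_of_nonneg_left (hT _ (Finset.mem_filter.mp hu).2) (hnn u)
      _ ≤ ∑ u : Fin N → Option Θ,
            (∏ i, (if u i = none ∨ u i = some (z i) then (1 : ℝ) else 0)) * τ :=
          Finset.sum_le_sum_of_subset_of_nonneg (Finset.filter_subset _ _)
            (fun u _ _ => mul_nonneg (hnn u) hτ)
      _ = 2 ^ N * τ := by
          rw [← Finset.sum_mul]
          congr 1
          have := Finset.prod_univ_sum (fun _ : Fin N => (univ : Finset (Option Θ)))
            (fun i o => (if o = none ∨ o = some (z i) then (1 : ℝ) else 0))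
          rw [Fintype.piFinset_univ] at this
          rw [← this]
          have h2 : ∀ i : Fin N,
              ∑ o : Option Θ, (if o = none ∨ o = some (z i) then (1 : ℝ) else 0) = 2 := by
            intro i
            rw [Fintype.sum_option]
            simp
            norm_num
          rw [Finset.prod_congr rfl (fun i _ => h2 i)]
          simp
  have hB : ∑ u ∈ univ.filter (fun u : Fin N → Option Θ => spp u ∉ UU), w u ^ 2 ≤
      ∑ u, w u ^ 2 :=
    Finset.sum_le_sum_of_subset_of_nonneg (Finset.filter_subset _ _) (fun u _ _ => sq_nonneg _)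
  refine mul_le_mul hA hB (Finset.sum_nonneg fun u _ => sq_nonneg _) ?_
  exact mul_nonneg (by positivity) hτ

end Pool.Agent.H70.UN
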