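import Pool.Agent.H17.UN.Tow

/-!
# MP_8b378c_ag, row SCI: the image of a section is a section
-/

set_option autoImplicit false

open Polynomial
open Pool.Agent.H17.UN

namespace Pool.Agent.H11.UN

section

variable {K L : Type} [Field K] [Field L] [Algebra K L] {F Kb Ω : IntermediateField K L}

/-- an element which is algebraic over `K` is in `Kb` -/
theorem mem_Kb_of_alg (hcls : IsAlgClosed Kb) (x : L) (hx : IsAlgebraic K x) : x ∈ Kb := by
  have h1 : IsIntegral Kb x := (hx.isIntegral).tower_top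
  have h2 : (minpoly Kb x).degree = 1 :=
    IsAlgClosed.degree_eq_one_of_irreducible Kb (minpoly.irreducible h1)
  obtain ⟨c, hc⟩ := minpoly.mem_range_of_degree_eq_one Kb x h2
  rw [← hc]
  exact c.2

theorem kb_aux (halg : ∀ x ∈ Kb, IsAlgebraic K x) (hcls : IsAlgClosed Kb) (σ : L ≃ₐ[Ω] L)
    (c : L) (hc : c ∈ Kb) : σ c ∈ Kb := by
  apply mem_Kb_of_alg hcls
  have h1 : IsAlgebraic K c := halg c hc
  exact h1.algHom ((σ.restrictScalars K : L ≃ₐ[K] L) : L →ₐ[K] L)

theorem fb_aux (halg : ∀ x ∈ Kb, IsAlgebraic K x) (hcls : IsAlgClosed Kb) (hF : F ≤ Ω)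
    (σ : L ≃ₐ[Ω] L) (x : L) (hx : x ∈ Fb F Kb) : σ x ∈ Fb F Kb := by
  induction hx using IntermediateField.adjoin_induction with
  | mem x hx =>
    have h1 : σ x = x := σ.commutes ⟨x, hF hx⟩
    rw [h1]
    exact IntermediateField.subset_adjoin Kb _ hx
  | algebraMap c =>
    have h1 := kb_aux halg hcls σ (algebraMap Kb L c) c.2
    exact IntermediateField.algebraMap_mem (Fb F Kb) ⟨_, h1⟩
  | add x y _ _ h1 h2 => rw [map_add]; exact add_mem h1 h2
  | inv x _ h1 => rw [map_inv₀]; exact inv_mem h1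
  | mul x y _ _ h1 h2 => rw [map_mul]; exact mul_mem h1 h2

end

theorem pf_SCI (_hFBS : T_FBS) : T_SCI := by
  intro K L _ _ _ _ P Q e c c' p0 F Kb Ω0 Ω s y z v X Y X' Y' w hD hT s' y' z' hs hy hz σ v v'
    himg
  have hle : F ≤ Ω := by
    rw [hT.hΩ, hT.hΩ0, hT.hF]
    refine le_trans ?_ le_sup_left
    apply IntermediateField.adjoin.mono
    intro t ht
    left
    rcases ht with ht | ht | ht
    · rw [ht]; simp
    · rw [ht]; simp
    · rw [ht]; simp
  have hsF : s ∈ F := by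
    rw [hT.hF]
    exact IntermediateField.subset_adjoin K _ (by simp)
  have hσs : ∀ σ : L ≃ₐ[Ω] L, σ s = s := fun σ => σ.commutes ⟨s, hle hsF⟩
  have hkb := fun σ : L ≃ₐ[Ω] L => kb_aux (Ω := Ω) hT.alg hT.cls σ
  have hfb := fun σ : L ≃ₐ[Ω] L => fb_aux (F := F) (Ω := Ω) hT.alg hT.cls hle σ
  have hhor : Hor v → Hor v' := by
    intro hv a
    have h1 : σ.symm (a : L) ∈ Kb := hkb σ.symm a a.2
    have h2 := himg (s' - algebraMap Kb (Fb F Kb) ⟨σ.symm (a : L), h1⟩)
      (s' - algebraMap Kb (Fb F Kb) a) ?_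
    · rw [h2]
      exact hv _
    · change (s' : L) - (a : L) = σ ((s' : L) - σ.symm (a : L))
      rw [map_sub, AlgEquiv.apply_symm_apply, hs, hσs]
  refine ⟨hhor, ?_⟩
  rintro ⟨hv, hsec⟩
  refine ⟨hhor hv, ?_⟩
  intro x hx
  have hx0 : σ.symm (x : L) ∈ Fb F Kb := hfb σ.symm _ x.2
  have h1 : v'.ord x = v.ord ⟨σ.symm (x : L), hx0⟩ := himg _ _ (by
    change (x : L) = σ (σ.symm (x : L))
    rw [AlgEquiv.apply_symm_apply])
  rw [h1] at hx
  obtain ⟨a, b, hb, hab⟩ := hsec _ hx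
  let σK : Kb →+* Kb := ((σ : L →+* L).comp (algebraMap Kb L)).codRestrict Kb
    (fun c => hkb σ _ c.2)
  have hσK : (algebraMap Kb L).comp σK = (σ : L →+* L).comp (algebraMap Kb L) := rfl
  have hkey : ∀ p : Kb[X], ((aeval s' (p.map σK) : Fb F Kb) : L) =
      σ ((aeval s' p : Fb F Kb) : L) := by
    intro p
    have e1 : ∀ q : Kb[X], ((aeval s' q : Fb F Kb) : L) = eval₂ (algebraMap Kb L) s q := by
      intro q
      have e2 := Polynomial.hom_eval₂ q (algebraMap Kb (Fb F Kb)) (algebraMap (Fb F Kb) L) s'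
      rw [← hs]
      exact e2
    rw [e1, e1, Polynomial.eval₂_map, hσK]
    have e3 := Polynomial.hom_eval₂ p (algebraMap Kb L) (σ : L →+* L) s
    have e4 : (σ : L →+* L) s = s := hσs σ
    rw [e4] at e3
    exact e3.symm
  have hdiv : ((aeval s' (a.map σK) / aeval s' (b.map σK) : Fb F Kb) : L) =
      σ ((aeval s' a / aeval s' b : Fb F Kb) : L) := by
    have e1 : ∀ q r : Fb F Kb, ((q / r : Fb F Kb) : L) = (q : L) / (r : L) := fun q r => rfl
    rw [e1, e1, hkey, hkey, map_div₀]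
  refine ⟨a.map σK, b.map σK, (Polynomial.map_ne_zero_iff σK.injective).2 hb, ?_⟩
  rcases hab with hab | hab
  · left
    apply Subtype.ext
    rw [hdiv, ← hab]
    change (x : L) = σ (σ.symm (x : L))
    rw [AlgEquiv.apply_symm_apply]
  · right
    rw [himg (⟨σ.symm (x : L), hx0⟩ - aeval s' a / aeval s' b)
      (x - aeval s' (a.map σK) / aeval s' (b.map σK)) (by
        change (x : L) - ((aeval s' (a.map σK) / aeval s' (b.map σK) : Fb F Kb) : L) =
          σ (σ.symm (x : L) - ((aeval s' a / aeval s' b : Fb F Kb) : L))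
        rw [map_sub, AlgEquiv.apply_symm_apply, hdiv])]
    exact hab

end Pool.Agent.H11.UN
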